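import Pool.Agent.H3.PS.Stm

set_option autoImplicit false

namespace Pool.Agent.H43.PS

open MeasureTheory ProbabilityTheory Filter Topology
open Pool.Agent.Helper581.Sand Pool.Agent.W5h98.Pol Pool.Agent.H3.PS
open Pool.Agent.Results.MP_faaa3e_pr.DenseClosedSites (siteLaw)

variable {d : ℕ}

theorem st_eq_one (r : ℕ) (ω : Om d) (x : V d) : st r ω x = 1 ↔ ω (x, 0) = true := by
  constructor
  · intro h
    by_contra hc
    rcases st_cases (r := r) hc with h0 | h2
    · rw [h0] at h; exact absurd h (by decide)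
    · rw [h2] at h; exact absurd h (by decide)
  · intro h
    unfold st
    rw [if_pos h]

theorem mv_locF (κ N : ℕ) (z : V d) (i : Fin d) {s : ℤ} (hs : s = 1 ∨ s = -1) :
    (mv z i s, 0) ∈ LocF κ N 1 z := by
  rw [mem_LocF]
  refine ⟨fun j => ?_, Nat.zero_le _, Or.inl rfl⟩
  by_cases hj : j = i
  · subst hj
    simp only [mv_same]
    rcases hs with rfl | rfl <;> constructor <;> omega
  · simp only [mv_ne _ _ hj]
    constructor <;> omega

theorem nc_congr (r : ℕ) (ω ω' : Om d) (z : V d)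
    (h : ∀ i : Fin d, ω (mv z i 1, 0) = ω' (mv z i 1, 0) ∧ ω (mv z i (-1), 0) = ω' (mv z i (-1), 0)) :
    nc (st r ω) z = nc (st r ω') z := by
  unfold nc
  apply Finset.sum_congr rfl
  intro i _
  simp only [st_eq_one, (h i).1, (h i).2]

theorem bad_dep (κ N s : ℕ) (z : V d) :
    Dep (LocF κ N 1 z : Set (V d × ℕ)) {ω | bad s (st κ ω) z} := by
  intro ω ω' h h1
  have e : nc (st κ ω) z = nc (st κ ω') z := nc_congr κ ω ω' z (fun i =>
    ⟨h _ (by exact_mod_cast mv_locF κ N z i (Or.inl rfl)),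
     h _ (by exact_mod_cast mv_locF κ N z i (Or.inr rfl))⟩)
  show s < nc (st κ ω') z
  rw [← e]
  exact h1

theorem grow_mono (s κ : ℕ) (η : V d → Fin 3) {t t' : ℕ} (h : t ≤ t') (x : V d)
    (hx : grow s κ η t x) : grow s κ η t' x := by
  induction h with
  | refl => exact hx
  | step _ ih => exact Or.inl ih

theorem grow_rule (s κ : ℕ) (η : V d → Fin 3) :
    Rule κ (bad s η) (fun x => ∃ t, grow s κ η t x) := by
  classical
  rintro x hx ⟨A, hA, hsup⟩
  have hch : ∀ i, ∃ t : ℕ, i ∈ A → (grow s κ η t (mv x i 1) ∨ grow s κ η t (mv x i (-1))) := by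
    intro i
    by_cases hi : i ∈ A
    · rcases hsup i hi with ⟨t, ht⟩ | ⟨t, ht⟩
      · exact ⟨t, fun _ => Or.inl ht⟩
      · exact ⟨t, fun _ => Or.inr ht⟩
    · exact ⟨0, fun h => absurd h hi⟩
  choose t ht using hch
  refine ⟨A.sup t + 1, Or.inr ⟨hx, A, hA, fun i hi => ?_⟩⟩
  rcases ht i hi with h | h
  · exact Or.inl (grow_mono s κ η (Finset.le_sup hi) _ h)
  · exact Or.inr (grow_mono s κ η (Finset.le_sup hi) _ h)

theorem CL (h1 : S_STG) (h2 : S_BP) (h3 : S_MES) : S_CL := by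
  intro d κ s hκ1 hκ p q δ hp hq hpq hδ hqδ h256
  have hq1 : q < 1 := by linarith
  obtain ⟨ρ, hr1, hr2, _⟩ := exists_rho hκ1 hp hq hpq hq1
  set q' : Set.Icc (0 : ℝ) 1 := ⟨q, hq, hq1.le⟩ with hq'
  have hmap := map_st (d := d) (q := q') (ρ := ρ) (p := p) κ hp.le hpq hr1
  have hE : MeasurableSet {η : V d → Fin 3 | ¬ ∃ t, grow s κ η t 0} := by
    have e : {η : V d → Fin 3 | ¬ ∃ t, grow s κ η t 0} = (⋃ t, {η : V d → Fin 3 | grow s κ η t 0})ᶜ := by
      ext η
      simp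
    rw [e]
    exact (MeasurableSet.iUnion fun t => h3 d s κ t 0).compl
  have hmap' : Measure.infinitePi (fun _ : V d => siteLaw p q) =
      (Pr d (law q' ρ)).map (fun (ω : Om d) (x : V d) => st κ ω x) := hmap.symm
  rw [hmap', map_measureReal_apply (measurable_st κ) hE]
  have h16 : (1 : ℝ) ≤ 16 ^ d := one_le_pow₀ (by norm_num)
  refine h1 d κ hκ (4 * 16 ^ d * δ) δ hδ (by nlinarith) h256 le_rfl (law q' ρ) ?_ κ le_rfl 1 le_rfl
    (fun ω z => bad s (st κ ω) z) (fun z => bad_dep κ κ s z) ?_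
    (fun ω z => ∃ t, grow s κ (st κ ω) t z) (fun ω => grow_rule s κ (st κ ω)) ?_
  · intro j hj _
    rw [law_pos _ _ hj, measureReal_def, bern_true, ENNReal.toReal_ofReal hr2.le]
    exact hr2
  · intro z
    exact (h2 d (by omega) q' ρ κ s z).trans hqδ
  · rintro ω z hz ⟨j, hj1, hj2, hs⟩
    refine ⟨0, hz, ?_⟩
    have hzz : ω (z, j) = true := hs z (by
      rw [mem_bxS]
      intro i
      constructor <;> omega)
    unfold st
    by_cases h0 : ω (z, 0) = true
    · rw [if_pos h0]; decide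
    · rw [if_neg h0, if_pos ⟨j, hj1, hj2, hzz⟩]; decide

end Pool.Agent.H43.PS
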